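import Mathlib
import Pool.Agent.Lib.MP_493d38_lc.KV.Final

namespace Pool.Agent.Results.MP_493d38_lc.FewVariables

open Pool.Agent.Lib.MP_493d38_lc.KV

theorem lin_le (a b k : ℕ) (h : a ≤ 2 ^ b) : a * (k + 1) ≤ 2 ^ (k + b) := by
  rw [add_comm k b, pow_add]
  exact Nat.mul_le_mul h Nat.lt_two_pow_self

theorem GG_le (k n : ℕ) : GG k (4 * (n + 1) * (4 * (n + 1)) ^ (2 * k) + 1) n ≤
    (n + 2) ^ ((10 * k + 15) * (TT k + 3)) := by
  have two : ∀ a, 2 ^ a ≤ (n + 2) ^ a := fun a => Nat.pow_le_pow_left (by omega) a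
  have h1 : 4 * (n + 1) ≤ (n + 2) ^ 2 := by nlinarith
  have h2 : 4 * (n + 1) * (4 * (n + 1)) ^ (2 * k) ≤ (n + 2) ^ (4 * k + 2) := by
    rw [← pow_succ', show 4 * k + 2 = 2 * (2 * k + 1) by ring, pow_mul]
    exact Nat.pow_le_pow_left h1 _
  generalize 4 * (n + 1) * (4 * (n + 1)) ^ (2 * k) = E at h2
  have h3 : 2 ^ 2 ≤ (n + 2) ^ (4 * k + 2) :=
    (Nat.pow_le_pow_right (by omega) (by omega)).trans (two _)
  have h4 : E + 1 + 7 ≤ (n + 2) ^ (4 * k + 4) := by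
    have := Nat.mul_le_mul_left ((n + 2) ^ (4 * k + 2)) (two 2)
    rw [← pow_add] at this
    have e : 4 * k + 2 + 2 = 4 * k + 4 := rfl
    rw [e] at this
    omega
  have h5 : 12 * k + 14 ≤ (n + 2) ^ (k + 4) := by
    have := lin_le 16 4 k (by norm_num)
    have := two (k + 4)
    omega
  have h6 : 8 * (k + 1) ≤ (n + 2) ^ (k + 3) := (lin_le 8 3 k (by norm_num)).trans (two _)
  have h7 : QQ k (E + 1) ≤ (n + 2) ^ (10 * k + 15) := by
    unfold QQ
    rw [show 10 * k + 15 = (k + 4) + (4 * k + 4) + ((k + 3) + (4 * k + 4)) by ring, pow_add,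
      pow_add, pow_add (n + 2) (k + 3)]
    exact Nat.mul_le_mul (Nat.mul_le_mul h5 h4) (Nat.mul_le_mul h6 (by omega))
  have h8 : (E + 1 + 1) * n + 1 ≤ (n + 2) ^ (4 * k + 5) := by
    rw [pow_succ]
    have := Nat.mul_le_mul_right (n + 2) h4
    nlinarith
  have h9 : 12 ≤ (n + 2) ^ 4 := le_trans (by norm_num) (two 4)
  unfold GG
  calc _ ≤ (n + 2) ^ 4 * (((n + 2) ^ (10 * k + 15)) ^ (TT k + 2) * (n + 2) ^ (4 * k + 5)) :=
        Nat.mul_le_mul h9 (Nat.mul_le_mul (Nat.pow_le_pow_left h7 _) h8)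
    _ = (n + 2) ^ (4 + ((10 * k + 15) * (TT k + 2) + (4 * k + 5))) := by
        rw [← pow_mul, ← pow_add, ← pow_add]
    _ ≤ _ := Nat.pow_le_pow_right (by omega) (by nlinarith)

theorem expo_le (k : ℕ) : (10 * k + 15) * (TT k + 3) * k ≤ 2 ^ (10 ^ 8 * (k + 1) ^ 14) := by
  have h1 : 10 * k + 15 ≤ 2 ^ (k + 4) := by
    have := lin_le 16 4 k (by norm_num)
    omega
  have h2 : k ≤ 2 ^ k := Nat.lt_two_pow_self.le
  have h3 : TT k + 3 ≤ 2 ^ 2 * TT k := by
    have : 0 < TT k := by unfold TT; positivity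
    omega
  have h4 : k * (k * (24 * k ^ 3 * (14 * k + 1))) * (14 * k + 2) ≤ 4704 * (k + 1) ^ 7 := by
    calc _ ≤ (k + 1) * ((k + 1) * (24 * (k + 1) ^ 3 * (14 * (k + 1)))) * (14 * (k + 1)) := by
          gcongr <;> omega
      _ = _ := by ring
  have h5 := Nat.pow_le_pow_left h4 2
  have h6 : k + 1 ≤ (k + 1) ^ 14 := Nat.le_self_pow (by omega) _
  have h7 : (4704 * (k + 1) ^ 7) ^ 2 = 22127616 * (k + 1) ^ 14 := by ring
  calc _ ≤ 2 ^ (k + 4) * (2 ^ 2 * TT k) * 2 ^ k := Nat.mul_le_mul (Nat.mul_le_mul h1 h3) h2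
    _ = 2 ^ (k + 4 + (2 + (k * (k * (24 * k ^ 3 * (14 * k + 1))) * (14 * k + 2)) ^ 2) + k) := by
        unfold TT
        rw [← pow_add, ← pow_add, ← pow_add]
    _ ≤ _ := Nat.pow_le_pow_right (by omega) (by omega)

/-- A satisfiable word equation `U = V` in `k` variables has a solution all of whose values have
length at most `(|U| + |V| + 2) ^ (2 ^ (10 ^ 8 * (k + 1) ^ 14))`. -/
theorem result (k : ℕ) (A : Type) (U V : List (A ⊕ Fin k)) (h : Fin k → List A)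
    (hsol : U.flatMap (Sum.elim (fun a => [a]) h) = V.flatMap (Sum.elim (fun a => [a]) h)) :
    ∃ g : Fin k → List A,
      U.flatMap (Sum.elim (fun a => [a]) g) = V.flatMap (Sum.elim (fun a => [a]) g) ∧
      ∀ x, (g x).length ≤ (U.length + V.length + 2) ^ (2 ^ (10 ^ 8 * (k + 1) ^ 14)) := by
  obtain ⟨g, hg⟩ := exists_min (U := U) (V := V) (h := h) hsol
  refine ⟨g, hg.1, fun x => ?_⟩
  have hap := exp_bound hg (n := U.length + V.length) (by omega) (by omega)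
  rw [Fintype.card_fin] at hap
  refine (min_bound hg hap (n := U.length + V.length) (by omega) (by omega)
    (Fintype.card_fin k).le x).trans ?_
  refine (Nat.pow_le_pow_left (GG_le k _) k).trans ?_
  rw [← pow_mul]
  exact Nat.pow_le_pow_right (by omega) (expo_le k)

end Pool.Agent.Results.MP_493d38_lc.FewVariables
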