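import Mathlib
import Pool.Agent.Lib.MP_493d38_lc.Token

namespace Pool.Agent.Results.MP_493d38_lc.DoubleExp

open Pool.Agent.Lib.MP_493d38_lc

/-- the involution `sw c` read modulo `3 (m + 1)` -/
def swm (m : ℕ) (c : ℤ) (z : ZMod (3 * (m + 1))) : ZMod (3 * (m + 1)) :=
  ((sw c (z.val : ℤ) : ℤ) : ZMod (3 * (m + 1)))

theorem swm_cast (m : ℕ) (c i : ℤ) : swm m c (i : ZMod (3 * (m + 1))) = (sw c i : ℤ) := by
  unfold swm
  rw [ZMod.intCast_eq_intCast_iff_dvd_sub, ZMod.val_intCast]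
  have h1 : (i % ((3 * (m + 1) : ℕ) : ℤ)) % 3 = i % 3 :=
    Int.emod_emod_of_dvd i (by push_cast; exact Dvd.intro _ rfl)
  have h2 : ((3 * (m + 1) : ℕ) : ℤ) ∣ i - i % ((3 * (m + 1) : ℕ) : ℤ) := Int.dvd_self_sub_emod
  have h3 : sw c i - sw c (i % ((3 * (m + 1) : ℕ) : ℤ)) = i - i % ((3 * (m + 1) : ℕ) : ℤ) := by
    generalize i % ((3 * (m + 1) : ℕ) : ℤ) = j at h1
    unfold sw
    split_ifs <;> omega
  rwa [h3]

theorem swm_inj (m : ℕ) (c : ℤ) : Function.Injective (swm m c) := by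
  refine Function.LeftInverse.injective (g := swm m c) fun z => ?_
  obtain ⟨i, rfl⟩ := ZMod.intCast_surjective z
  rw [swm_cast, swm_cast, sw_sw]

abbrev Q (m : ℕ) := ZMod (3 * (m + 1)) × Bool × Bool

def proj (m : ℕ) (s : St) : Q m := ((s.1 : ZMod (3 * (m + 1))), s.2)

def aut (m : ℕ) (f : St) : DFA Bool (Q m) where
  step s l := if l then (swm m (if s.2.1 then 2 else 1) s.1, !s.2.1, s.2.2)
    else (swm m (if s.2.2 then 2 else 0) s.1, s.2.1, !s.2.2)
  start := proj m s0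
  accept := {proj m f}

theorem aut_evalFrom (m : ℕ) (f : St) (X : List Bool) :
    ∀ s, (aut m f).evalFrom (proj m s) X = proj m (run X s) := by
  induction X with
  | nil => exact fun _ => rfl
  | cons l X ih =>
    intro s
    have : (aut m f).step (proj m s) l = proj m (stp 0 1 2 s l) := by
      cases l <;> simp [aut, proj, stp, swm_cast]
    change (aut m f).evalFrom ((aut m f).step (proj m s) l) X = proj m (run X (stp 0 1 2 s l))
    rw [this, ih]

theorem mem_aut (m : ℕ) (f : St) (X : List Bool) :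
    X ∈ (aut m f).accepts ↔ proj m (run X s0) = proj m f := by
  rw [DFA.mem_accepts, ← aut_evalFrom m f]
  rfl

theorem aut_inj (m : ℕ) (f : St) (l : Bool) : Function.Injective fun s => (aut m f).step s l := by
  rintro ⟨i, p, q⟩ ⟨j, p', q'⟩ h
  cases l <;> cases p <;> cases p' <;> cases q <;> cases q' <;>
    simp [aut, (swm_inj m _).eq_iff] at h ⊢ <;> exact h

theorem result (n : ℕ) : ∃ (k : Fin n → ℕ) (A : ∀ i, DFA Bool (Fin (k i))),
    (∀ i, k i ≤ 12 * n) ∧ (∀ i c, Function.Bijective fun s => (A i).step s c) ∧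
    (∃ X Y : List Bool, X ++ [true, false] ++ Y = Y ++ [false, true] ++ X ∧
      ∀ i, X ∈ (A i).accepts) ∧
    ∀ X Y : List Bool, X ++ [true, false] ++ Y = Y ++ [false, true] ++ X →
      (∀ i, X ∈ (A i).accepts) →
        2 ^ (2 ^ n / (8 * n + 8)) ≤ 16 * (X ++ [true, false] ++ Y).length := by
  obtain ⟨X0, Y0, hs0, h1, h2⟩ := fib_pos (Nat.lcmUpto n / 4)
  refine ⟨fun i => Fintype.card (Q i),
    fun i => DFA.reindex (Fintype.equivFin (Q i)) (aut i (run X0 s0)), fun i => ?_,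
    fun i c => ?_, ⟨X0, Y0, hs0, fun i => ?_⟩, fun X Y hs hX => ?_⟩
  · have := i.2
    simp only [Fintype.card_prod, ZMod.card, Fintype.card_bool]
    omega
  · refine Finite.injective_iff_bijective.mp ?_
    exact (Fintype.equivFin (Q i)).injective.comp
      ((aut_inj i _ c).comp (Fintype.equivFin (Q i)).symm.injective)
  · rw [DFA.accepts_reindex, mem_aut]
  · obtain ⟨j, h3, h4, h5⟩ := Sol.bound (X := X) (Y := Y) hs
    have h6 : (Nat.lcmUpto n : ℤ) ∣ (run X0 s0).1 - (run X s0).1 := by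
      rw [Int.natCast_dvd]
      refine Finset.lcm_dvd fun m hm => ?_
      obtain ⟨hm1, hm2⟩ := Finset.mem_Icc.mp hm
      have h7 := hX ⟨m - 1, by omega⟩
      rw [DFA.accepts_reindex, mem_aut] at h7
      have h8 := (ZMod.intCast_eq_intCast_iff_dvd_sub _ _ _).mp (congrArg Prod.fst h7)
      rw [id, ← Int.natCast_dvd]
      refine Dvd.dvd.trans ?_ h8
      exact Int.natCast_dvd_natCast.mpr ⟨3, by simp only []; omega⟩
    have h7 : Nat.lcmUpto n ≤ 4 * j + 28 := by
      obtain ⟨t, ht⟩ := h6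
      rcases le_or_gt t 0 with h0 | h0
      · have : (Nat.lcmUpto n : ℤ) * t ≤ 0 := mul_nonpos_of_nonneg_of_nonpos (by positivity) h0
        omega
      · have : (Nat.lcmUpto n : ℤ) ≤ (Nat.lcmUpto n : ℤ) * t :=
          le_mul_of_one_le_right (by positivity) h0
        omega
    have h8 : 8 * (2 ^ n / (8 * n + 8)) ≤ Nat.lcmUpto n := by
      have h9 := (Nat.div_mul_le_self (2 ^ n) (8 * n + 8)).trans
        (Chebyshev.two_pow_le_mul_lcmUpto n)
      refine Nat.le_of_mul_le_mul_left (a := 8 * (2 ^ n / (8 * n + 8))) (c := n + 1) ?_ n.succ_pos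
      nlinarith
    have h9 : (X ++ [true, false] ++ Y).length = X.length + 2 + Y.length := by simp; omega
    rw [h9]
    refine (Nat.pow_le_pow_iff_left two_ne_zero).mp ?_
    calc (2 ^ (2 ^ n / (8 * n + 8))) ^ 2 = 2 ^ (2 ^ n / (8 * n + 8) * 2) := by rw [← pow_mul]
      _ ≤ 2 ^ (8 + j) := Nat.pow_le_pow_right two_pos (by omega)
      _ ≤ _ := by
        rw [pow_add, mul_pow]
        exact Nat.mul_le_mul (by norm_num) h3

end Pool.Agent.Results.MP_493d38_lc.DoubleExp
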