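import Pool.Agent.Lib.MP_493d38_lc.XP.Algo

namespace Pool.Agent.Results.MP_493d38_lc.FewVariablesTime

open Turing Pool.Agent.Lib.MP_493d38_lc.XP Pool.Agent.Shared.PolyTime

/-- One deterministic multi-stack Turing machine decides satisfiability of all word equations
`U = V` in time `(N + 2) ^ (2 ^ (C * (k + 1) ^ 14))`, where `N` is the length of the binary
encoding of `(U, V)` and `k` is the number of distinct variables. A symbol `(true, x)` is the
variable `x`, a symbol `(false, a)` is the constant `a`, and `S` is the alphabet. -/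
theorem result : ∃ (M : TM2ComputableAux Bool Bool) (C : ℕ),
    ∀ (U V : List (Bool × ℕ)) (S : Set ℕ), (∀ a, (false, a) ∈ U ++ V → a ∈ S) → ∃ b : Bool,
      (b = true ↔ ∃ h : ℕ → List ℕ, (∀ x, ∀ a ∈ h x, a ∈ S) ∧
        U.flatMap (fun s => bif s.1 then h s.2 else [s.2]) =
          V.flatMap (fun s => bif s.1 then h s.2 else [s.2])) ∧
      Nonempty (TM2OutputsInTime M.tm
        (List.map M.inputAlphabet.invFun (N487b59b3.bitEncode (U, V)))
        (some (List.map M.outputAlphabet.invFun [b]))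
        (((N487b59b3.bitEncode (U, V)).length + 2) ^
          2 ^ (C * (((U ++ V).filter fun s => s.1).toFinset.card + 1) ^ 14))) := by
  obtain ⟨p, C, h⟩ := dec_run
  refine ⟨machineAux p, C, fun U V S hS => ⟨dec (U, V), ?_, ?_⟩⟩
  · rw [dec_iff]
    exact ⟨fun ⟨_, hs⟩ => restrict (e := (U, V)) hS hs, fun ⟨g, _, hs⟩ => ⟨g, hs⟩⟩
  · obtain ⟨t, h1, h2⟩ := h (U, V)
    obtain ⟨⟨⟨t', ht⟩, hle⟩⟩ := h1.toTM2
    have e1 : ∀ l : List Bool, List.map (Equiv.refl Bool).invFun l = l := fun l => by simp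
    rw [List.card_toFinset]
    refine ⟨{ steps := t', evals_in_steps := ?_, steps_le_m := hle.trans h2 }⟩
    rw [← e1 (N487b59b3.bitEncode (U, V)), ← e1 (N487b59b3.bitEncode (dec (U, V)))] at ht
    exact ht

end Pool.Agent.Results.MP_493d38_lc.FewVariablesTime
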